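import Pool.Agent.W2helper67.TM.Mt

set_option autoImplicit false

/-! # Translation matchings of the ordinates -/

namespace Pool.Agent.W2helper67.TM

open Filter Topology MeasureTheory Set
open Pool.Agent.W2helper67.RL Pool.Agent.W2helper93.NV

/-- **the block form** -/
theorem core (K : ℕ) : ∃ δ A : ℝ, 0 < δ ∧ 0 < A ∧ ∀ H : ℝ, 0 ≤ H → ∃ T0 : ℝ, 10 ≤ T0 ∧
    ∀ T : ℝ, T0 ≤ T → ∀ a : ℝ, A / Real.log T ≤ a → a ≤ H → ∀ (S : Finset ℕ) (φ : ℕ → ℕ),
    S ⊆ Finset.Ico (NL T) (NL (2 * T)) → Set.InjOn φ S →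
    (∀ n ∈ S, |od (φ n) - od n - a| ≤ K * (2 * Real.pi / Real.log T)) →
    δ * (T * Real.log T) ≤ ((Finset.Ico (NL T) (NL (2 * T)) \ S).card : ℝ) := by
  classical
  have hpi := Real.pi_pos
  have hpi3 := Real.pi_gt_three
  have hpi4 := Real.pi_lt_four
  obtain ⟨C, T1, hC, hT1, hg⟩ := gvar
  obtain ⟨CK, hCK⟩ : ∃ CK : ℝ, CK = C * (1 + Real.log K) := ⟨_, rfl⟩
  have hlK : 0 ≤ Real.log K := Real.log_natCast_nonneg K
  have hCK0 : 0 < CK := by rw [hCK]; positivity
  obtain ⟨R, hR⟩ : ∃ R : ℝ, R = 1 + 64 * CK := ⟨_, rfl⟩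
  have hR1 : 1 ≤ R := by rw [hR]; linarith
  have hR2 : CK / R ^ 2 ≤ 1 / 64 := by
    rw [div_le_iff₀ (by positivity)]
    have : 64 * CK ≤ R ^ 2 := by
      have h1 : R ≤ R ^ 2 := by nlinarith
      linarith
    linarith
  obtain ⟨d0, r0, hd0, hr0, hsb⟩ := sball (1 / 16) (by norm_num)
  -- choice of r
  have evr : ∀ᶠ r : ℕ in atTop, r0 ≤ r ∧ K + 1 ≤ r ∧ (2 * K + 2 * R) ≤ d0 * Real.sqrt (Real.log r) := by
    have e1 : ∀ᶠ r : ℕ in atTop, r0 ≤ (r : ℝ) := tendsto_natCast_atTop_atTop.eventually_ge_atTop r0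
    have e2 : ∀ᶠ r : ℕ in atTop, K + 1 ≤ r := eventually_ge_atTop _
    have e3 : ∀ᶠ r : ℕ in atTop, ((2 * K + 2 * R) / d0) ^ 2 ≤ Real.log r :=
      (Real.tendsto_log_atTop.comp tendsto_natCast_atTop_atTop).eventually_ge_atTop _
    filter_upwards [e1, e2, e3] with r h1 h2 h3
    refine ⟨h1, h2, ?_⟩
    have h4 : (2 * K + 2 * R) / d0 ≤ Real.sqrt (Real.log r) := Real.le_sqrt_of_sq_le h3
    rw [div_le_iff₀ hd0] at h4
    linarith
  obtain ⟨r, hr1, hrK, hr2⟩ := evr.exists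
  have hr3 : (3 : ℝ) ≤ r := hr0.trans hr1
  have hrp : (0 : ℝ) < r := by linarith
  have hKr : (K : ℝ) ≤ r := by
    have : K ≤ r := by omega
    exact_mod_cast this
  have hK0 : (0 : ℝ) ≤ K := Nat.cast_nonneg K
  refine ⟨1 / (64 * r), 4 * Real.pi * r, by positivity, by positivity, fun H hH => ?_⟩
  obtain ⟨T2, hT2, hsbT⟩ := hsb r hr1 H hH
  obtain ⟨Ce, T3, hCe, hT3, hends⟩ := ends
  -- size of T
  have ev1 : ∀ᶠ T : ℝ in atTop, 2 * Real.log T + 7 + H ≤ T / 2 := by
    have h1 : (fun T : ℝ => 2 * Real.log T + (7 + H)) =o[atTop] fun T : ℝ => T :=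
      (Real.isLittleO_log_id_atTop.const_mul_left 2).add (Asymptotics.isLittleO_const_id_atTop _)
    have h2 := h1.bound (c := 1 / 2) (by norm_num)
    filter_upwards [h2, eventually_ge_atTop 1] with T hT hT1
    rw [Real.norm_of_nonneg (by linarith : (0 : ℝ) ≤ T)] at hT
    have := (le_abs_self _).trans hT
    linarith
  have ev2 : ∀ᶠ T : ℝ in atTop, (r : ℝ) * r + 7 + H ≤ Real.log T :=
    Real.tendsto_log_atTop.eventually_ge_atTop _
  have ev3 : ∀ᶠ T : ℝ in atTop, (Ce * (r * 8)) * Real.log T ≤ 1 / 16 * T := by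
    have h1 : (fun T : ℝ => (Ce * (r * 8)) * Real.log T) =o[atTop] fun T : ℝ => T :=
      Real.isLittleO_log_id_atTop.const_mul_left _
    have h2 := h1.bound (c := 1 / 16) (by norm_num)
    filter_upwards [h2, eventually_ge_atTop 1] with T hT hT1
    rw [Real.norm_of_nonneg (by linarith : (0 : ℝ) ≤ T)] at hT
    exact (le_abs_self _).trans hT
  obtain ⟨T4, hT4⟩ := ((ev1.and ev2).and ev3).exists_forall_of_atTop
  refine ⟨max (max T1 T2) (max T3 T4), hT1.trans ((le_max_left _ _).trans (le_max_left _ _)), ?_⟩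
  intro T hT a ha1 ha2 S φ hS hφ hd
  have hTT1 : T1 ≤ T := ((le_max_left _ _).trans (le_max_left _ _)).trans hT
  have hTT2 : T2 ≤ T := ((le_max_right _ _).trans (le_max_left _ _)).trans hT
  have hTT3 : T3 ≤ T := ((le_max_left _ _).trans (le_max_right _ _)).trans hT
  obtain ⟨⟨g1, g2⟩, g3⟩ := hT4 T (((le_max_right _ _).trans (le_max_right _ _)).trans hT)
  have hT10 : 10 ≤ T := hT1.trans hTT1
  have hT0 : 0 < T := by linarith
  set L := Real.log T with hL
  have hrr : (r : ℝ) ≤ r * r := by nlinarith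
  have hL7 : 7 + H ≤ L := by linarith [mul_nonneg hrp.le hrp.le]
  have hL0 : 0 < L := by linarith
  have hrL : (r : ℝ) ≤ L := by linarith
  set ρ := 2 * Real.pi / L with hρ
  have hρ0 : 0 < ρ := by positivity
  have hρL : ρ * L = 2 * Real.pi := by rw [hρ]; field_simp
  have hrρ : (r : ℝ) * ρ ≤ 8 := by
    have h1 : (r : ℝ) * ρ ≤ L * ρ := mul_le_mul_of_nonneg_right hrL hρ0.le
    linarith
  have hrρ7 : (r : ℝ) * ρ ≤ 7 := by
    have h1 : (r : ℝ) * ρ ≤ L * ρ := mul_le_mul_of_nonneg_right hrL hρ0.le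
    have h2 := Real.pi_lt_d2
    linarith
  have hrρ0 : 0 ≤ (r : ℝ) * ρ := by positivity
  have hKρ : (K : ℝ) * ρ ≤ r * ρ := mul_le_mul_of_nonneg_right hKr hρ0.le
  have hKρ0 : 0 ≤ (K : ℝ) * ρ := by positivity
  have ha : 2 * (r * ρ) ≤ a := by
    have h1 : 4 * Real.pi * r / L = 2 * (r * ρ) := by rw [hρ]; ring
    linarith
  have ha0 : 0 ≤ a := by linarith
  have hKlog : (K : ℝ) * Real.log K ≤ L := by
    have h1 : Real.log K ≤ r := by
      rcases Nat.eq_zero_or_pos K with h0 | h0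
      · rw [h0, Nat.cast_zero, Real.log_zero]; exact hrp.le
      · have h2 : (0 : ℝ) < K := by exact_mod_cast h0
        have := Real.log_le_sub_one_of_pos h2
        linarith
    have h2 : (K : ℝ) * Real.log K ≤ r * r := mul_le_mul hKr h1 hlK hrp.le
    linarith
  set α := T + L with hα
  set β := 2 * T - L - 7 - H with hβ
  have hαβ : α ≤ β := by rw [hα, hβ]; linarith
  have hJ : T / 2 ≤ β - α := by rw [hα, hβ]; linarith
  set I := Finset.Ico (NL T) (NL (2 * T)) with hI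
  -- the exceptional sets
  have hG : ∀ s : ℝ, -7 ≤ s → s ≤ H + 7 →
      volume.real {t ∈ Set.Ioc α β | R < |Gf ρ (t + s) K|} ≤ 1 / 64 * T := by
    intro s hs1 hs2
    have k1 := gshift (hg T hTT1 K hKlog) (α := α) (β := β) (s := s) hαβ
      (by rw [hα]; linarith) (by rw [hβ]; linarith)
    obtain ⟨k2, k3⟩ := meas_piece ((Gf_LB ρ K).shift s) hαβ (by linarith : 0 < R) k1
    refine k3.trans ?_
    rw [← hCK]
    calc CK * T / R ^ 2 = CK / R ^ 2 * T := by ring
      _ ≤ 1 / 64 * T := mul_le_mul_of_nonneg_right hR2 hT0.le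
  have hm1 := hG (a + r * ρ) (by linarith) (by linarith)
  have hm2 := hG (a - K * ρ) (by linarith) (by linarith)
  have hm3 := hG (r * ρ) (by linarith) (by linarith)
  have hm4 := hG (-(K * ρ)) (by linarith) (by linarith)
  have hm5 := hsbT T hTT2 a (by
    rw [← hL]
    have : 2 * Real.pi * r / L = r * ρ := by rw [hρ]; ring
    rw [this]
    exact ha) ha2 0
  simp only [← hL, ← hρ, ← hα, ← hβ, sub_zero] at hm5
  have hm6 := Wn_vol (I \ S) 0 hrρ0
  have hm7 := Wn_vol (I \ S.image φ) a hrρ0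
  -- the size of the second set
  set B := S.filter (fun n => 2 * T - (a + K * ρ) ≤ od n) with hB
  have hBc : (B.card : ℝ) ≤ Ce * L ^ 2 := by
    refine hends T hTT3 (2 * T - (a + K * ρ)) (2 * T) (by linarith) le_rfl (by linarith) B ?_
    intro n hn
    rw [hB, Finset.mem_filter] at hn
    exact ⟨hn.2, (mem_NL.1 (hS hn.1)).2⟩
  have hcard : (I \ S.image φ).card ≤ (I \ S).card + B.card := by
    have k1 : (S.image φ).card = S.card := Finset.card_image_of_injOn hφ
    have k2 : S.image φ \ I ⊆ B.image φ := by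
      intro m hm
      rw [Finset.mem_sdiff] at hm
      obtain ⟨n, hn, rfl⟩ := Finset.mem_image.1 hm.1
      refine Finset.mem_image_of_mem φ ?_
      rw [hB, Finset.mem_filter]
      refine ⟨hn, ?_⟩
      by_contra hcon
      push Not at hcon
      apply hm.2
      rw [hI, mem_NL]
      obtain ⟨j1, j2⟩ := abs_le.1 (hd n hn)
      have j3 := (mem_NL.1 (hS hn)).1
      constructor <;> linarith
    have k3 : (S.image φ \ I).card ≤ B.card := (Finset.card_le_card k2).trans Finset.card_image_le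
    have k4 : (S.image φ \ I).card + (S.image φ ∩ I).card = (S.image φ).card :=
      Finset.card_sdiff_add_card_inter _ _
    have k5 : (I \ S.image φ).card + (I ∩ S.image φ).card = I.card :=
      Finset.card_sdiff_add_card_inter _ _
    have k6 : (I \ S).card + (I ∩ S).card = I.card := Finset.card_sdiff_add_card_inter _ _
    have k7 : I ∩ S = S := Finset.inter_eq_right.2 hS
    rw [Finset.inter_comm] at k5
    rw [k7] at k6
    omega
  have hcard' : ((I \ S.image φ).card : ℝ) ≤ (I \ S).card + Ce * L ^ 2 := by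
    have := (Nat.cast_le (α := ℝ)).2 hcard
    rw [Nat.cast_add] at this
    linarith
  -- covering
  have hcov : Set.Ioc α β ⊆ (((Wn (I \ S) 0 (r * ρ) ∪ Wn (I \ S.image φ) a (r * ρ)) ∪
      ({t ∈ Set.Ioc α β | R < |Gf ρ (t + (a + r * ρ)) K|} ∪
       {t ∈ Set.Ioc α β | R < |Gf ρ (t + (a - K * ρ)) K|})) ∪
      ({t ∈ Set.Ioc α β | R < |Gf ρ (t + r * ρ) K|} ∪
       {t ∈ Set.Ioc α β | R < |Gf ρ (t + -(K * ρ)) K|})) ∪
      {t ∈ Set.Ioc α β | |Dd ρ a r t| ≤ d0 * Real.sqrt (Real.log r)} := by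
    intro t ht
    by_contra hcon
    simp only [Set.mem_union, not_or] at hcon
    obtain ⟨⟨⟨⟨n1, n2⟩, n3, n4⟩, n5, n6⟩, n7⟩ := hcon
    have q : ∀ s : ℝ, t ∉ {t ∈ Set.Ioc α β | R < |Gf ρ (t + s) K|} → |Gf ρ (t + s) K| ≤ R := by
      intro s hs
      by_contra hc
      push Not at hc
      exact hs ⟨ht, hc⟩
    apply n7
    refine ⟨ht, ?_⟩
    refine (step hρ0 ha0 K r S φ hφ hd (t := t) (T := T) ?_ ?_ n1 n2 (q _ n3) (q _ n4) (q _ n5)
      (q _ n6)).trans hr2
    · linarith [ht.1]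
    · linarith [ht.2]
  have hfinI : ∀ p : ℝ → Prop, volume {t ∈ Set.Ioc α β | p t} ≠ ⊤ := fun p =>
    ((measure_mono (Set.sep_subset _ _)).trans_lt measure_Ioc_lt_top).ne
  have hvol : volume.real (Set.Ioc α β) = β - α := by
    rw [Real.volume_real_Ioc, max_eq_left]
    linarith
  have hfinU : volume ((((Wn (I \ S) 0 (r * ρ) ∪ Wn (I \ S.image φ) a (r * ρ)) ∪
      ({t ∈ Set.Ioc α β | R < |Gf ρ (t + (a + r * ρ)) K|} ∪
       {t ∈ Set.Ioc α β | R < |Gf ρ (t + (a - K * ρ)) K|})) ∪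
      ({t ∈ Set.Ioc α β | R < |Gf ρ (t + r * ρ) K|} ∪
       {t ∈ Set.Ioc α β | R < |Gf ρ (t + -(K * ρ)) K|})) ∪
      {t ∈ Set.Ioc α β | |Dd ρ a r t| ≤ d0 * Real.sqrt (Real.log r)}) ≠ ⊤ := by
    have hu : ∀ {A B : Set ℝ}, volume A ≠ ⊤ → volume B ≠ ⊤ → volume (A ∪ B) ≠ ⊤ :=
      fun hA hB => (measure_union_lt_top hA.lt_top hB.lt_top).ne
    exact hu (hu (hu (hu (Wn_fin _ _ _) (Wn_fin _ _ _)) (hu (hfinI _) (hfinI _)))
      (hu (hfinI _) (hfinI _))) (hfinI _)
  have hle := (measureReal_mono hcov hfinU).trans ((measureReal_union_le _ _).trans (add_le_add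
    ((measureReal_union_le _ _).trans (add_le_add ((measureReal_union_le _ _).trans (add_le_add
    (measureReal_union_le _ _) (measureReal_union_le _ _))) (measureReal_union_le _ _))) le_rfl))
  rw [hvol] at hle
  have hm7' : volume.real (Wn (I \ S.image φ) a (r * ρ)) ≤
      ((I \ S).card : ℝ) * (r * ρ) + 1 / 16 * T := by
    refine hm7.trans ((mul_le_mul_of_nonneg_right hcard' hrρ0).trans ?_)
    have k1 : Ce * L ^ 2 * (r * ρ) = Ce * r * L * (ρ * L) := by ring
    have k2 : Ce * r * L * (ρ * L) ≤ (Ce * (r * 8)) * L := by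
      rw [hρL]
      have k3 : 0 ≤ Ce * r * L := by positivity
      nlinarith
    have k4 : (((I \ S).card : ℝ) + Ce * L ^ 2) * (r * ρ) =
      ((I \ S).card : ℝ) * (r * ρ) + Ce * L ^ 2 * (r * ρ) := by ring
    rw [k4, k1]
    linarith
  have hfinal : 1 / 8 * T ≤ ((I \ S).card : ℝ) * (r * ρ) := by linarith
  have hX0 : (0 : ℝ) ≤ (I \ S).card := Nat.cast_nonneg _
  have k5 : ((I \ S).card : ℝ) * (r * ρ) * L = ((I \ S).card : ℝ) * r * (2 * Real.pi) := by
    rw [← hρL]; ring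
  have k6 : 1 / 8 * T * L ≤ ((I \ S).card : ℝ) * r * (2 * Real.pi) := by
    rw [← k5]
    exact mul_le_mul_of_nonneg_right hfinal hL0.le
  have k7 : ((I \ S).card : ℝ) * r * (2 * Real.pi) ≤ ((I \ S).card : ℝ) * r * 8 := by
    apply mul_le_mul_of_nonneg_left _ (by positivity)
    linarith
  rw [div_mul_eq_mul_div, one_mul, div_le_iff₀ (by positivity)]
  linarith

/-- **the index form** -/
theorem main (K : ℝ) : ∃ δ A : ℝ, 0 < δ ∧ 0 < A ∧ ∀ H : ℝ, ∀ᶠ N : ℕ in atTop,
    ∀ a : ℝ, A / Real.log N ≤ a → a ≤ H → ∀ (S : Finset ℕ) (φ : ℕ → ℕ),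
    (∀ n ∈ S, n < N) → Set.InjOn φ S → (∀ n ∈ S, |od (φ n) - od n - a| ≤ K / Real.log N) →
    (S.card : ℝ) ≤ (1 - δ) * N := by
  classical
  have hpi := Real.pi_pos
  have hpi3 := Real.pi_gt_three
  obtain ⟨K', hK'⟩ := exists_nat_ge K
  obtain ⟨δ, A, hδ, hA, hcore⟩ := core K'
  obtain ⟨Cu, Tu, hCu, hTu, hup⟩ := NL_up
  obtain ⟨Tl, hTl, hlow⟩ := NT_low
  refine ⟨δ / (6 * Cu), 2 * A, by positivity, by positivity, fun H => ?_⟩
  obtain ⟨T0, hT0, h⟩ := hcore (max H 0) (le_max_right _ _)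
  have ev1 : ∀ᶠ T : ℝ in atTop, 6 * Cu * Real.log T ≤ T := by
    have h1 : (fun T : ℝ => 6 * Cu * Real.log T) =o[atTop] fun T : ℝ => T :=
      Real.isLittleO_log_id_atTop.const_mul_left _
    have h2 := h1.bound (c := 1) one_pos
    filter_upwards [h2, eventually_ge_atTop 1] with T hT hT1
    rw [one_mul, Real.norm_of_nonneg (by linarith : (0 : ℝ) ≤ T)] at hT
    exact (le_abs_self _).trans hT
  obtain ⟨T1, hT1⟩ := (ev1.and (Real.tendsto_log_atTop.eventually_ge_atTop 8)).exists_forall_of_atTop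
  obtain ⟨X, hX⟩ : ∃ X : ℝ, X = max (max T0 Tu) (max Tl T1) := ⟨_, rfl⟩
  have hX1 : T0 ≤ X := by rw [hX]; exact (le_max_left _ _).trans (le_max_left _ _)
  have hX2 : Tu ≤ X := by rw [hX]; exact (le_max_right _ _).trans (le_max_left _ _)
  have hX3 : Tl ≤ X := by rw [hX]; exact (le_max_left _ _).trans (le_max_right _ _)
  have hX4 : T1 ≤ X := by rw [hX]; exact (le_max_right _ _).trans (le_max_right _ _)
  filter_upwards [eventually_ge_atTop (NL (2 * X))] with N hN a ha1 ha2 S φ hSN hφ hd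
  have hod : 2 * X ≤ od N := (le_od N _).2 hN
  obtain ⟨T, hT⟩ : ∃ T : ℝ, T = od N / 2 := ⟨_, rfl⟩
  have hTX : X ≤ T := by rw [hT]; linarith
  have h2T : 2 * T = od N := by rw [hT]; ring
  have hT10 : 10 ≤ T := by linarith
  have hTp : 0 < T := by linarith
  obtain ⟨g1, g2⟩ := hT1 T (hX4.trans hTX)
  have hL0 : 0 < Real.log T := by linarith
  -- NL (2T) ≤ N
  have hNL : NL (2 * T) ≤ N := by
    rw [h2T]
    exact (le_od N _).1 le_rfl
  -- size of N
  have hlogT2 : Real.log (3 * T) ≤ 2 * Real.log T := by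
    have h3 : Real.log (3 * T) ≤ Real.log (T ^ 2) :=
      Real.log_le_log (by linarith) (by nlinarith)
    rw [Real.log_pow] at h3
    exact_mod_cast h3
  have hNup : (N : ℝ) ≤ 6 * Cu * (T * Real.log T) := by
    have k1 : N < NL (3 * T) := by
      rw [← od_lt]
      linarith
    have k2 : (N : ℝ) ≤ NL (3 * T) := by exact_mod_cast k1.le
    have k3 := hup (3 * T) (by linarith)
    calc (N : ℝ) ≤ Cu * (3 * T * Real.log (3 * T)) := k2.trans k3
      _ ≤ Cu * (3 * T * (2 * Real.log T)) := by gcongr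
      _ = _ := by ring
  have hNT : T ≤ N := by
    have k1 : NT T ≤ NL (2 * T) := NT_le_NL (by linarith)
    have k2 := hlow T (hX3.trans hTX)
    have k3 : (NT T : ℝ) ≤ N := by exact_mod_cast k1.trans hNL
    have k4 : T * 8 ≤ T * Real.log T := mul_le_mul_of_nonneg_left g2 hTp.le
    linarith
  have hN0 : (0 : ℝ) < N := by linarith
  have hlTN : Real.log T ≤ Real.log N := Real.log_le_log hTp hNT
  have hlNT : Real.log N ≤ 2 * Real.log T := by
    have k1 : (N : ℝ) ≤ T ^ 2 := by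
      calc (N : ℝ) ≤ 6 * Cu * (T * Real.log T) := hNup
        _ = T * (6 * Cu * Real.log T) := by ring
        _ ≤ T * T := mul_le_mul_of_nonneg_left g1 hTp.le
        _ = T ^ 2 := by ring
    have k2 := Real.log_le_log hN0 k1
    rw [Real.log_pow] at k2
    exact_mod_cast k2
  have hlN0 : 0 < Real.log N := by linarith
  -- the restriction of S
  set I := Finset.Ico (NL T) (NL (2 * T)) with hI
  have hcore' := h T (hX1.trans hTX) a ?_ (ha2.trans (le_max_left _ _)) (S ∩ I) φ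
    Finset.inter_subset_right (hφ.mono (by
      intro x hx
      exact Finset.mem_of_mem_inter_left (Finset.mem_coe.1 hx))) ?_
  · rw [← hI] at hcore'
    have k1 : S ⊆ Finset.range N \ (I \ (S ∩ I)) := by
      intro n hn
      rw [Finset.mem_sdiff, Finset.mem_range]
      refine ⟨hSN n hn, fun hcon => ?_⟩
      rw [Finset.mem_sdiff] at hcon
      exact hcon.2 (Finset.mem_inter.2 ⟨hn, hcon.1⟩)
    have k2 : I \ (S ∩ I) ⊆ Finset.range N := by
      intro n hn
      rw [Finset.mem_sdiff] at hn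
      have := (Finset.mem_Ico.1 hn.1).2
      rw [Finset.mem_range]
      omega
    have k3 := Finset.card_le_card k1
    rw [Finset.card_sdiff_of_subset k2, Finset.card_range] at k3
    have k4 := Finset.card_le_card k2
    rw [Finset.card_range] at k4
    have k5 : (S.card : ℝ) ≤ N - ((I \ (S ∩ I)).card : ℝ) := by
      rw [← Nat.cast_sub k4]
      exact_mod_cast k3
    have k6 : δ / (6 * Cu) * N ≤ δ * (T * Real.log T) := by
      calc δ / (6 * Cu) * N ≤ δ / (6 * Cu) * (6 * Cu * (T * Real.log T)) :=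
            mul_le_mul_of_nonneg_left hNup (by positivity)
        _ = _ := by field_simp
    calc (S.card : ℝ) ≤ N - δ / (6 * Cu) * N := by linarith
      _ = _ := by ring
  · refine le_trans ?_ ha1
    rw [div_le_div_iff₀ hL0 hlN0]
    nlinarith
  · intro n hn
    refine (hd n (Finset.mem_of_mem_inter_left hn)).trans ?_
    have k1 : K / Real.log N ≤ K' / Real.log N := div_le_div_of_nonneg_right hK' hlN0.le
    refine k1.trans ?_
    rw [div_le_iff₀ hlN0]
    have k2 : (K' : ℝ) * (2 * Real.pi / Real.log T) * Real.log N =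
        K' * (2 * Real.pi) * (Real.log N / Real.log T) := by ring
    rw [k2]
    have k3 : 1 ≤ Real.log N / Real.log T := by rwa [one_le_div hL0]
    have k4 : (0 : ℝ) ≤ K' := Nat.cast_nonneg _
    have k5 : (K' : ℝ) * 1 ≤ K' * (2 * Real.pi) := mul_le_mul_of_nonneg_left (by linarith) k4
    have k6 : (K' : ℝ) * (2 * Real.pi) * 1 ≤ K' * (2 * Real.pi) * (Real.log N / Real.log T) :=
      mul_le_mul_of_nonneg_left k3 (by positivity)
    linarith

/-- both signs of the translation -/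
theorem main2 (K : ℝ) : ∃ δ A : ℝ, 0 < δ ∧ 0 < A ∧ ∀ H : ℝ, ∀ᶠ N : ℕ in atTop,
    ∀ a : ℝ, A / Real.log N ≤ |a| → |a| ≤ H → ∀ (S : Finset ℕ) (φ : ℕ → ℕ),
    (∀ n ∈ S, n < N) → Set.InjOn φ S → (∀ n ∈ S, |od (φ n) - od n - a| ≤ K / Real.log N) →
    (S.card : ℝ) ≤ (1 - δ) * N := by
  classical
  obtain ⟨δ, A, hδ, hA, h⟩ := main K
  have hK0 := abs_nonneg K
  refine ⟨δ, A + |K| + 1, hδ, by positivity, fun H => ?_⟩
  filter_upwards [h H, eventually_ge_atTop 3] with N hN hN3 a ha1 ha2 S φ hSN hφ hd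
  have hN3' : (3 : ℝ) ≤ N := by exact_mod_cast hN3
  have hl0 : 0 < Real.log N := Real.log_pos (by linarith)
  have hA1 : A / Real.log N ≤ |a| := by
    refine le_trans ?_ ha1
    apply div_le_div_of_nonneg_right _ hl0.le
    linarith
  have hA2 : K / Real.log N < |a| := by
    refine lt_of_lt_of_le ?_ ha1
    apply div_lt_div_of_pos_right _ hl0
    linarith [le_abs_self K]
  rcases le_or_gt 0 a with ha | ha
  · rw [abs_of_nonneg ha] at hA1 ha2
    exact hN a hA1 ha2 S φ hSN hφ hd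
  · rw [abs_of_neg ha] at hA1 hA2 ha2
    rcases S.eq_empty_or_nonempty with rfl | hne
    · have := hN (-a) hA1 ha2 ∅ id (by simp) (by simp) (by simp)
      exact this
    have hinv : ∀ m ∈ S.image φ, Function.invFunOn φ S m ∈ S ∧
        φ (Function.invFunOn φ S m) = m := by
      intro m hm
      obtain ⟨n, hn, hnm⟩ := Finset.mem_image.1 hm
      have hex : ∃ x ∈ (S : Set ℕ), φ x = m := ⟨n, Finset.mem_coe.2 hn, hnm⟩
      exact ⟨Finset.mem_coe.1 (Function.invFunOn_mem hex), Function.invFunOn_eq hex⟩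
    have h1 := hN (-a) hA1 ha2 (S.image φ) (Function.invFunOn φ S) ?_ ?_ ?_
    · rwa [Finset.card_image_of_injOn hφ] at h1
    · intro m hm
      obtain ⟨n, hn, rfl⟩ := Finset.mem_image.1 hm
      have h2 := (abs_le.1 (hd n hn)).2
      have h3 : od (φ n) < od n := by linarith
      have h4 := (od_lt (φ n) (od n)).1 h3
      have h5 : NL (od n) ≤ n := (le_od n _).1 le_rfl
      have h6 := hSN n hn
      omega
    · intro x hx y hy hxy
      rw [← (hinv x (Finset.mem_coe.1 hx)).2, ← (hinv y (Finset.mem_coe.1 hy)).2, hxy]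
    · intro m hm
      obtain ⟨h2, h3⟩ := hinv m hm
      have h4 := hd _ h2
      rw [h3] at h4
      rw [← abs_neg]
      have e : -(od (Function.invFunOn φ S m) - od m - -a) =
        od m - od (Function.invFunOn φ S m) - a := by ring
      rwa [e]

end Pool.Agent.W2helper67.TM
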