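import Pool.Agent.W2helper67.TM.Sb4
import Pool.Agent.W2helper67.RL.Dy

set_option autoImplicit false

/-! # No almost translation invariance of the ordinates -/

namespace Pool.Agent.W2helper67.TM

open Filter Topology MeasureTheory Set
open Pool.Agent.W2helper67.RL

lemma mem_NL {n : ℕ} {s t : ℝ} : n ∈ Finset.Ico (NL s) (NL t) ↔ s ≤ od n ∧ od n < t := by
  rw [Finset.mem_Ico, ← le_od, ← od_lt]

lemma NL_card {s t : ℝ} (h : s ≤ t) : ((Finset.Ico (NL s) (NL t)).card : ℝ) = NL t - NL s := by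
  rw [Nat.card_Ico, Nat.cast_sub (NL_mono h)]

lemma map_card' (φ : ℕ → ℕ) (W V : Finset ℕ)
    (h : ∀ m ∈ W, ∃ n ∈ V, φ n = m) : W.card ≤ V.card := by
  classical
  have h1 : W ⊆ V.image φ := fun m hm => by
    obtain ⟨n, hn, hnm⟩ := h m hm
    exact Finset.mem_image.2 ⟨n, hn, hnm⟩
  exact (Finset.card_le_card h1).trans Finset.card_image_le

/-- the union of the windows of a finite set of ordinates -/
noncomputable def Wn (F : Finset ℕ) (s d : ℝ) : Set ℝ := ⋃ n ∈ F, Set.Ioc (od n - s - d) (od n - s)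

lemma Wn_meas (F : Finset ℕ) (s d : ℝ) : MeasurableSet (Wn F s d) :=
  Finset.measurableSet_biUnion _ fun _ _ => measurableSet_Ioc

lemma Wn_vol (F : Finset ℕ) (s : ℝ) {d : ℝ} (hd : 0 ≤ d) : volume.real (Wn F s d) ≤ F.card * d := by
  unfold Wn
  refine (measureReal_biUnion_finset_le _ _).trans ?_
  have h : ∀ n ∈ F, volume.real (Set.Ioc (od n - s - d) (od n - s)) ≤ d := by
    intro n _
    rw [Real.volume_real_Ioc]
    rw [max_eq_left]
    · linarith
    · linarith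
  refine (Finset.sum_le_sum h).trans ?_
  rw [Finset.sum_const, nsmul_eq_mul]

lemma Wn_fin (F : Finset ℕ) (s d : ℝ) : volume (Wn F s d) ≠ ⊤ := by
  unfold Wn
  refine ne_of_lt (lt_of_le_of_lt (measure_biUnion_finset_le _ _) ?_)
  exact ENNReal.sum_lt_top.2 fun n _ => measure_Ioc_lt_top

/-- the difference of the windows in terms of the counts -/
lemma Dd_eq (ρ a : ℝ) (r : ℕ) (t : ℝ) : Dd ρ a r t =
    ((NL (t + r * ρ) : ℝ) - NL t) - ((NL (t + a + r * ρ) : ℝ) - NL (t + a)) := by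
  unfold Dd Gf
  ring

lemma Gf_cnt (ρ s : ℝ) (K : ℕ) : (NL (s + K * ρ) : ℝ) - NL s = K + Gf ρ s K := by
  unfold Gf
  ring

/-- **the deterministic step** -/
lemma step {ρ a T : ℝ} (hρ : 0 < ρ) (ha : 0 ≤ a) (K r : ℕ) (S : Finset ℕ) (φ : ℕ → ℕ)
    (hφ : Set.InjOn φ S)
    (hd : ∀ n ∈ S, |od (φ n) - od n - a| ≤ K * ρ) {t : ℝ} (ht1 : T ≤ t)
    (ht2 : t + a + r * ρ ≤ 2 * T)
    (h1 : t ∉ Wn (Finset.Ico (NL T) (NL (2 * T)) \ S) 0 (r * ρ))
    (h2 : t ∉ Wn (Finset.Ico (NL T) (NL (2 * T)) \ S.image φ) a (r * ρ)) {R : ℝ}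
    (g1 : |Gf ρ (t + (a + r * ρ)) K| ≤ R) (g2 : |Gf ρ (t + (a - K * ρ)) K| ≤ R)
    (g3 : |Gf ρ (t + r * ρ) K| ≤ R) (g4 : |Gf ρ (t + -(K * ρ)) K| ≤ R) :
    |Dd ρ a r t| ≤ 2 * K + 2 * R := by
  classical
  have hr0 : 0 ≤ (r : ℝ) * ρ := by positivity
  have hK0 : 0 ≤ (K : ℝ) * ρ := by positivity
  set I := Finset.Ico (NL T) (NL (2 * T)) with hI
  -- forward
  have f1 : (Finset.Ico (NL t) (NL (t + r * ρ))).card ≤
      (Finset.Ico (NL (t + a - K * ρ)) (NL (t + a + r * ρ + K * ρ))).card := by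
    have hin : ∀ n ∈ Finset.Ico (NL t) (NL (t + r * ρ)), n ∈ S := by
      intro n hn
      rw [mem_NL] at hn
      by_contra hnS
      apply h1
      unfold Wn
      rw [Set.mem_iUnion₂]
      refine ⟨n, ?_, ?_⟩
      · rw [Finset.mem_sdiff, hI, mem_NL]
        exact ⟨⟨by linarith [hn.1], by linarith [hn.2]⟩, hnS⟩
      · rw [Set.mem_Ioc]
        constructor <;> linarith [hn.1, hn.2]
    refine Finset.card_le_card_of_injOn φ ?_ ?_
    · intro n hn
      have hnS := hin n hn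
      have hn' := Finset.mem_coe.1 hn
      rw [mem_NL] at hn'
      obtain ⟨k1, k2⟩ := abs_le.1 (hd n hnS)
      rw [Finset.mem_coe, mem_NL]
      constructor <;> linarith [hn'.1, hn'.2]
    · intro x hx y hy hxy
      exact hφ (hin x hx) (hin y hy) hxy
  -- backward
  have f2 : (Finset.Ico (NL (t + a)) (NL (t + a + r * ρ))).card ≤
      (Finset.Ico (NL (t - K * ρ)) (NL (t + r * ρ + K * ρ))).card := by
    refine map_card' φ _ _ ?_
    intro m hm
    rw [mem_NL] at hm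
    by_contra hcon
    apply h2
    unfold Wn
    rw [Set.mem_iUnion₂]
    refine ⟨m, ?_, ?_⟩
    · rw [Finset.mem_sdiff, hI, mem_NL]
      refine ⟨⟨by linarith [hm.1], by linarith [hm.2]⟩, fun hmS => hcon ?_⟩
      obtain ⟨n, hnS, hnm⟩ := Finset.mem_image.1 hmS
      refine ⟨n, ?_, hnm⟩
      obtain ⟨k1, k2⟩ := abs_le.1 (hd n hnS)
      rw [hnm] at k1 k2
      rw [mem_NL]
      constructor <;> linarith [hm.1, hm.2]
    · rw [Set.mem_Ioc]
      constructor <;> linarith [hm.1, hm.2]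
  have F1 := (Nat.cast_le (α := ℝ)).2 f1
  have F2 := (Nat.cast_le (α := ℝ)).2 f2
  rw [NL_card (by linarith), NL_card (by linarith)] at F1 F2
  -- the short windows
  have e1 := Gf_cnt ρ (t + (a + r * ρ)) K
  have e2 := Gf_cnt ρ (t + (a - K * ρ)) K
  have e3 := Gf_cnt ρ (t + r * ρ) K
  have e4 := Gf_cnt ρ (t + -(K * ρ)) K
  have q1 : t + (a + r * ρ) + K * ρ = t + a + r * ρ + K * ρ := by ring
  have q1' : t + (a + r * ρ) = t + a + r * ρ := by ring
  have q2 : t + (a - K * ρ) + K * ρ = t + a := by ring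
  have q2' : t + (a - K * ρ) = t + a - K * ρ := by ring
  have q4 : t + -(K * ρ) + K * ρ = t := by ring
  have q4' : t + -(K * ρ) = t - K * ρ := by ring
  rw [q1, q1'] at e1
  rw [q2, q2'] at e2
  rw [q4, q4'] at e4
  rw [q1'] at g1
  rw [q2'] at g2
  rw [q4'] at g4
  rw [Dd_eq]
  obtain ⟨a1, a2⟩ := abs_le.1 g1
  obtain ⟨b1, b2⟩ := abs_le.1 g2
  obtain ⟨c1, c2⟩ := abs_le.1 g3
  obtain ⟨d1, d2⟩ := abs_le.1 g4
  rw [abs_le]
  constructor <;> linarith

end Pool.Agent.W2helper67.TM
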