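import Pool.Agent.W2helper67.TM.Va

set_option autoImplicit false

/-! # Small balls of the difference of two far apart windows -/

namespace Pool.Agent.W2helper67.TM

open Complex Filter Topology MeasureTheory Set
open Pool.Agent.TH850.UV
open ArithmeticFunction (vonMangoldt)
open Pool.Agent.Y743.CL (Pr mem_Pr)
open Pool.Agent.W2helper93.NV
open Pool.Agent.W2helper67.RL

/-- the difference of two windows at distance `a` -/
noncomputable def Dd (ρ a : ℝ) (r : ℕ) (t : ℝ) : ℝ := Gf ρ t r - Gf ρ (t + a) r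

lemma Dd_LB (ρ a : ℝ) (r : ℕ) : LB (Dd ρ a r) := (Gf_LB ρ r).sub ((Gf_LB ρ r).shift a)

lemma PS_cont {ι : Type} [Fintype ι] (l : ℝ) (c h : ι → ℝ) : Continuous fun t : ℝ => (PS l c h t).re := by
  unfold PS
  refine Complex.continuous_re.comp (dsum_cont _ ?_ _)
  intro n hn
  exact (mem_Pr.1 hn).1.one_le

lemma ps4 (l α a t : ℝ) : PS l c4 (h4 α a) t =
    PS l (fun _ : Unit => (1 : ℝ)) (fun _ => α) t -
      PS l (fun _ : Unit => (1 : ℝ)) (fun _ => α) (t + a) := by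
  unfold PS
  rw [← Finset.sum_sub_distrib]
  refine Finset.sum_congr rfl fun p hp => ?_
  have hp1 : 1 ≤ p := (mem_Pr.1 hp).1.one_le
  rw [kc4 l α a p hp1, cpow_add p hp1 t a]
  have e : kc l (fun _ : Unit => (1 : ℝ)) (fun _ => α) p = kap l α p := by
    unfold kc
    simp
  rw [e]
  ring

lemma ap4 {lam : ℝ} (hlam : 16 ≤ lam) (hW : WMom lam) : ∃ C T0 : ℝ, 0 < C ∧ 10 ≤ T0 ∧
    ∀ T : ℝ, T0 ≤ T → ∀ r : ℕ, (r : ℝ) ≤ Real.log T → ∀ a H : ℝ, 0 ≤ a → a ≤ H →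
      T + Real.log T ≤ 2 * T - Real.log T - 7 - H →
      ∫ t in (T + Real.log T)..(2 * T - Real.log T - 7 - H),
        (Dd (2 * Real.pi / Real.log T) a r t + (PS (Real.log T / lam) c4
          (h4 (2 * Real.pi * r / Real.log T) a) t).re) ^ 2 ≤ C * T := by
  obtain ⟨C, T0, hC, hT0, h⟩ := approx (ι := Unit) hlam hW
  refine ⟨4 * C, T0, by positivity, hT0, fun T hT r hr a H ha haH hab => ?_⟩
  have h1 := h T hT (fun _ => 1) (fun _ => r) (fun _ => hr)
  simp only [Finset.univ_unique, Finset.sum_singleton, one_mul, abs_one, one_pow, mul_one] at h1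
  set ρ := 2 * Real.pi / Real.log T with hρ
  set α := 2 * Real.pi * r / Real.log T with hα
  set l := Real.log T / lam with hl
  set P1 : ℝ → ℝ := fun t => (PS l (fun _ : Unit => (1 : ℝ)) (fun _ => α) t).re with hP1
  have hP1c : Continuous P1 := PS_cont _ _ _
  set F : ℝ → ℝ := fun t => (Gf ρ t r + P1 t) ^ 2 with hF
  have hFLB : LB F := ((Gf_LB ρ r).add (LB.cont hP1c)).sqr
  set a0 := T + Real.log T with ha0
  set b1 := 2 * T - Real.log T - 7 with hb1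
  have hF0 : ∀ t, 0 ≤ F t := fun t => sq_nonneg _
  have h1' : ∫ t in a0..b1, F t ≤ C * T := h1
  have i1 : ∫ t in a0..(b1 - H), F t ≤ C * T := by
    refine le_trans ?_ h1'
    exact intervalIntegral.integral_mono_interval le_rfl hab (by linarith)
      (ae_of_all _ hF0) (hFLB.ii _ _)
  have i2 : ∫ t in a0..(b1 - H), F (t + a) ≤ C * T := by
    rw [intervalIntegral.integral_comp_add_right (fun t => F t) a]
    refine le_trans ?_ h1'
    exact intervalIntegral.integral_mono_interval (by linarith) (by linarith) (by linarith)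
      (ae_of_all _ hF0) (hFLB.ii _ _)
  have hpt : ∀ t, (Dd ρ a r t + (PS l c4 (h4 α a) t).re) ^ 2 ≤ 2 * F t + 2 * F (t + a) := by
    intro t
    rw [ps4, Complex.sub_re]
    simp only [hF, hP1]
    unfold Dd
    nlinarith [sq_nonneg ((Gf ρ t r + (PS l (fun _ : Unit => (1 : ℝ)) (fun _ => α) t).re) +
      (Gf ρ (t + a) r + (PS l (fun _ : Unit => (1 : ℝ)) (fun _ => α) (t + a)).re))]
  have hlb : LB fun t => (Dd ρ a r t + (PS l c4 (h4 α a) t).re) ^ 2 :=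
    ((Dd_LB ρ a r).add (LB.cont (PS_cont _ _ _))).sqr
  have hrb : LB fun t => 2 * F t + 2 * F (t + a) := (hFLB.cmul 2).add ((hFLB.shift a).cmul 2)
  have h3 : ∫ t in a0..(b1 - H), (Dd ρ a r t + (PS l c4 (h4 α a) t).re) ^ 2 ≤
      ∫ t in a0..(b1 - H), (2 * F t + 2 * F (t + a)) :=
    intervalIntegral.integral_mono_on hab (hlb.ii _ _) (hrb.ii _ _) fun t _ => hpt t
  rw [intervalIntegral.integral_add ((hFLB.cmul 2).ii _ _) (((hFLB.shift a).cmul 2).ii _ _),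
    intervalIntegral.integral_const_mul, intervalIntegral.integral_const_mul] at h3
  linarith

/-- **the small ball estimate** -/
theorem sball (ε : ℝ) (hε : 0 < ε) : ∃ δ r0 : ℝ, 0 < δ ∧ 3 ≤ r0 ∧ ∀ r : ℕ, r0 ≤ r → ∀ H : ℝ,
    0 ≤ H → ∃ T0 : ℝ, 10 ≤ T0 ∧ ∀ T : ℝ, T0 ≤ T → ∀ a : ℝ,
    2 * (2 * Real.pi * r / Real.log T) ≤ a → a ≤ H → ∀ b : ℝ,
    volume.real {t ∈ Set.Ioc (T + Real.log T) (2 * T - Real.log T - 7 - H) |
      |Dd (2 * Real.pi / Real.log T) a r t - b| ≤ δ * Real.sqrt (Real.log r)} ≤ ε * T := by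
  classical
  have hpi := Real.pi_pos
  obtain ⟨δ, hδ⟩ : ∃ δ : ℝ, δ = ε / 200 := ⟨_, rfl⟩
  have hδ0 : 0 < δ := by rw [hδ]; positivity
  obtain ⟨K, hK⟩ : ∃ K : ℝ, K = 8 / δ ^ 2 := ⟨_, rfl⟩
  have hK0 : 0 ≤ K := by rw [hK]; positivity
  have h1 := FloorSemiring.tendsto_pow_div_factorial_atTop K
  have h2 : ∀ᶠ n : ℕ in atTop, K ^ n / n.factorial < ε / 192 :=
    h1.eventually (gt_mem_nhds (by positivity))
  obtain ⟨M0, hM0⟩ := exists_nat_ge (2 * K)
  obtain ⟨M, hM1, hM2⟩ := (h2.and (eventually_ge_atTop M0)).exists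
  have hKM : K ≤ M / 2 := by
    have : (M0 : ℝ) ≤ M := by exact_mod_cast hM2
    linarith
  obtain ⟨lam0, hlam0, hWM⟩ := wmom_all
  obtain ⟨lam, hlamd⟩ : ∃ lam : ℝ, lam = max lam0 (2 * M) := ⟨_, rfl⟩
  have hlama : lam0 ≤ lam := by rw [hlamd]; exact le_max_left _ _
  have hlamb : 2 * (M : ℝ) ≤ lam := by rw [hlamd]; exact le_max_right _ _
  have hlam16 : 16 ≤ lam := hlam0.trans hlama
  have hlamp : 0 < lam := by linarith
  have hW := hWM lam hlama
  obtain ⟨C1, r1, hC1, hr1, hvar⟩ := var4 hlam16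
  obtain ⟨C2, T2, hC2, hT2, happ⟩ := ap4 hlam16 hW
  obtain ⟨C3, hC3⟩ : ∃ C3 : ℝ, C3 = M * (M ^ 2 * (1 + K) ^ M) * ((4 : ℝ) ^ 2 / δ ^ 2) := ⟨_, rfl⟩
  have hC30 : 0 ≤ C3 := by rw [hC3]; positivity
  obtain ⟨C4, hC4⟩ : ∃ C4 : ℝ, C4 = (2 * M + 1) * (1 + K) ^ (2 * M) := ⟨_, rfl⟩
  have hC40 : 0 < C4 := by rw [hC4]; positivity
  obtain ⟨C5, hC5⟩ : ∃ C5 : ℝ, C5 = 64 * (C2 * (4 : ℝ) ^ 2 + 1) / (δ * ε) := ⟨_, rfl⟩
  have hC50 : 0 < C5 := by rw [hC5]; positivity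
  obtain ⟨D0, hD0⟩ : ∃ D0 : ℝ, D0 = 4 * (64 * C3 / ε + C5 ^ 2) + 4 * C1 + 4 := ⟨_, rfl⟩
  have hpos3 : 0 ≤ 64 * C3 / ε := by positivity
  have hpos5 : 0 ≤ C5 ^ 2 := by positivity
  refine ⟨δ / 2, max (max 3 r1) (Real.exp D0), by positivity,
    (le_max_left _ _).trans (le_max_left _ _), fun r hr H hH => ?_⟩
  have hr3 : (3 : ℝ) ≤ r := ((le_max_left _ _).trans (le_max_left _ _)).trans hr
  have hrr1 : r1 ≤ r := ((le_max_right _ _).trans (le_max_left _ _)).trans hr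
  have hr0 : (0 : ℝ) < r := by linarith
  have hrD : D0 ≤ Real.log r := by
    rw [Real.le_log_iff_exp_le hr0]
    exact (le_max_right _ _).trans hr
  rw [hD0] at hrD
  obtain ⟨T1, hT1, hv⟩ := hvar r hrr1 H hH
  have herr := Pool.Agent.Y41.SW.err_tendsto
  have ev0 : ∀ᶠ T : ℝ in atTop, Real.sqrt T * (1 + Real.log T) / T < ε / (512 * C4) :=
    herr.eventually (gt_mem_nhds (by positivity))
  have ev1 : ∀ᶠ T : ℝ in atTop, 2 * Real.log T + 7 + H ≤ T / 2 := by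
    have h1 : (fun T : ℝ => 2 * Real.log T + (7 + H)) =o[atTop] fun T : ℝ => T :=
      (Real.isLittleO_log_id_atTop.const_mul_left 2).add (Asymptotics.isLittleO_const_id_atTop _)
    have h2 := h1.bound (c := 1 / 2) (by norm_num)
    filter_upwards [h2, eventually_ge_atTop 1] with T hT hT1
    rw [Real.norm_of_nonneg (by linarith : (0 : ℝ) ≤ T)] at hT
    have := (le_abs_self _).trans hT
    linarith
  have ev2 : ∀ᶠ T : ℝ in atTop, (r : ℝ) ≤ Real.log T := Real.tendsto_log_atTop.eventually_ge_atTop _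
  obtain ⟨T3, hT3⟩ := ((ev0.and ev1).and ev2).exists_forall_of_atTop
  refine ⟨max (max T1 T2) T3, hT1.trans ((le_max_left _ _).trans (le_max_left _ _)), ?_⟩
  intro T hT a ha haH b
  have hTT1 : T1 ≤ T := ((le_max_left _ _).trans (le_max_left _ _)).trans hT
  have hTT2 : T2 ≤ T := ((le_max_right _ _).trans (le_max_left _ _)).trans hT
  obtain ⟨⟨g0, g1⟩, g2⟩ := hT3 T ((le_max_right _ _).trans hT)
  have hT10 : 10 ≤ T := hT1.trans hTT1
  have hT0 : 0 < T := by linarith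
  have hL0 : 0 < Real.log T := Real.log_pos (by linarith)
  have ha0' : 0 ≤ a := le_trans (by positivity) ha
  obtain ⟨hVlow, hVup⟩ := hv T hTT1 a ha haH
  have hab0 : T + Real.log T ≤ 2 * T - Real.log T - 7 - H := by linarith
  have happ' := happ T hTT2 r g2 a H ha0' haH hab0
  set V1 := ∑ p ∈ Pr (YT (Real.log T / lam)), ‖kc (Real.log T / lam) c4
        (h4 (2 * Real.pi * r / Real.log T) a) p‖ ^ 2 with hV1
  set P : ℝ → ℝ := fun t => (PS (Real.log T / lam) c4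
          (h4 (2 * Real.pi * r / Real.log T) a) t).re with hP
  set Y : ℝ → ℝ := Dd (2 * Real.pi / Real.log T) a r with hY
  have hYLB : LB Y := Dd_LB _ _ _
  have hPc : Continuous P := PS_cont _ _ _
  obtain ⟨ℓ, hℓ⟩ : ∃ ℓ : ℝ, ℓ = Real.log r / 4 := ⟨_, rfl⟩
  have hℓ0 : 0 < ℓ := by
    rw [hℓ]
    linarith
  have hℓr : Real.log r = 4 * ℓ := by rw [hℓ]; ring
  set a0 := T + Real.log T with ha0
  set b0 := 2 * T - Real.log T - 7 - H with hb0
  have hbaT : b0 - a0 ≤ T := by rw [ha0, hb0]; linarith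
  have hsℓ : 0 < Real.sqrt ℓ := Real.sqrt_pos.2 hℓ0
  have hsℓ2 : Real.sqrt ℓ ^ 2 = ℓ := Real.sq_sqrt hℓ0.le
  have hrad : δ / 2 * Real.sqrt (Real.log r) = δ * Real.sqrt ℓ := by
    rw [hℓr, Real.sqrt_mul (by norm_num)]
    have : Real.sqrt 4 = 2 := by
      rw [show (4 : ℝ) = 2 ^ 2 by norm_num, Real.sqrt_sq (by norm_num)]
    rw [this]
    ring
  rw [hrad]
  have hSS : ∑ i, |c4 i| ≤ 4 := by
    simp only [Fin.sum_univ_four, c4, Matrix.cons_val_zero, Matrix.cons_val_one, Matrix.cons_val]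
    norm_num
  have hfin := conc (Y := Y) hYLB.1 (b := b) (δ := δ * Real.sqrt ℓ) (s := ℓ / 80) (E := ε / 16 * T)
    hab0 (by positivity) (by positivity) (by positivity) ?_
  · refine hfin.trans ?_
    have k1 : δ * Real.sqrt ℓ / Real.sqrt (ℓ / 80) ≤ 9 * δ := by
      rw [Real.sqrt_div hℓ0.le]
      have k2 : Real.sqrt 80 ≤ 9 := by
        rw [Real.sqrt_le_left (by norm_num)]
        norm_num
      have k3 : 0 < Real.sqrt 80 := Real.sqrt_pos.2 (by norm_num)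
      have e : δ * Real.sqrt ℓ / (Real.sqrt ℓ / Real.sqrt 80) = δ * Real.sqrt 80 := by
        field_simp
      rw [e, mul_comm 9 δ]
      exact mul_le_mul_of_nonneg_left k2 hδ0.le
    have k2 : (b0 - a0) * (δ * Real.sqrt ℓ / Real.sqrt (ℓ / 80)) ≤ T * (9 * δ) :=
      mul_le_mul hbaT k1 (by positivity) hT0.le
    have k3 : T * (9 * δ) = 9 / 200 * (ε * T) := by rw [hδ]; ring
    have k4 : 0 < ε * T := by positivity
    linarith
  · intro u hu0 hu1
    have hVK : u ^ 2 * V1 ≤ K := by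
      have hu2 : u ^ 2 ≤ 1 / (δ ^ 2 * ℓ) := by
        have k1 := pow_le_pow_left₀ hu0 hu1 2
        have e : (1 / (δ * Real.sqrt ℓ)) ^ 2 = 1 / (δ ^ 2 * ℓ) := by
          rw [div_pow, one_pow, mul_pow, hsℓ2]
        rwa [e] at k1
      have hV8 : V1 ≤ 8 * ℓ := by linarith
      calc u ^ 2 * V1 ≤ 1 / (δ ^ 2 * ℓ) * (8 * ℓ) := by
            apply mul_le_mul hu2 hV8 _ (by positivity)
            linarith
        _ = K := by rw [hK]; field_simp
    have hcf := cf_prime c4 (h4 (2 * Real.pi * r / Real.log T) a) hlam16 hlamb hT10 hab0 hbaT hu0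
      hSS hK0 hKM hVK
    refine cf_one (V := V1) (S0 := 4) (C2 := C2) (E2 := C2 * 4 ^ 2 * T) hYLB hPc hab0 hbaT hu0 hu1
      hT10 hδ0 hε hℓ0 rfl hC2.le (happ'.trans ?_) hcf hM1 hK0 hC3 hC4 hC40 hC5 hC50
      (by linarith) (by linarith) g0 (by linarith)
    have : 0 < C2 * T := by positivity
    linarith

end Pool.Agent.W2helper67.TM
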