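import Pool.Agent.Cov.PNT

set_option autoImplicit false

/-! # Cosine sums over primes from the prime number theorem -/

namespace Pool.Agent.W2helper67.TM

open MeasureTheory Filter Topology Set

/-- the primes `p` with `a < p ≤ b` -/
noncomputable def PI (a b : ℝ) : Finset ℕ := (Finset.Ioc ⌊a⌋₊ ⌊b⌋₊).filter Nat.Prime

/-- partial summation over primes -/
lemma abel {a b ε : ℝ} (ha : 1 ≤ a) (hab : a ≤ b) {f f' : ℝ → ℝ}
    (hf : ∀ t ∈ Icc a b, HasDerivAt f (f' t) t) (hf' : ContinuousOn f' (Icc a b))
    (hE : ∀ t ∈ Icc a b, |Chebyshev.theta t - t| ≤ ε * t) :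
    |∑ p ∈ PI a b, f p * Real.log p - ∫ t in a..b, f t| ≤
      ε * (b * |f b| + a * |f a| + ∫ t in a..b, t * |f' t|) := by
  set c : ℕ → ℝ := fun k => if k.Prime then Real.log k else 0 with hc
  have hfd : ∀ t ∈ Icc a b, DifferentiableAt ℝ f t := fun t ht => (hf t ht).differentiableAt
  have hderiv : EqOn (deriv f) f' (Icc a b) := fun t ht => (hf t ht).deriv
  have hint : IntegrableOn (deriv f) (Icc a b) :=
    (hf'.integrableOn_Icc).congr_fun (fun t ht => (hderiv ht).symm) measurableSet_Icc
  have hab' := sum_mul_eq_sub_sub_integral_mul c (by linarith : (0 : ℝ) ≤ a) hab hfd hint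
  have hθ : ∀ t : ℝ, ∑ k ∈ Finset.Icc 0 ⌊t⌋₊, c k = Chebyshev.theta t := by
    intro t
    rw [Chebyshev.theta_eq_sum_Icc, Finset.sum_filter]
  have hsum : ∑ p ∈ PI a b, f p * Real.log p = ∑ k ∈ Finset.Ioc ⌊a⌋₊ ⌊b⌋₊, f k * c k := by
    unfold PI
    rw [Finset.sum_filter]
    refine Finset.sum_congr rfl fun k _ => ?_
    simp only [hc]
    split_ifs <;> simp
  rw [hsum, hab', hθ, hθ]
  have hcf : ContinuousOn f (Icc a b) := fun t ht => (hf t ht).continuousAt.continuousWithinAt
  have hif : IntervalIntegrable f volume a b :=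
    (hcf.mono (by rw [uIcc_of_le hab])).intervalIntegrable
  have hif' : IntervalIntegrable f' volume a b :=
    (hf'.mono (by rw [uIcc_of_le hab])).intervalIntegrable
  have hitf' : IntervalIntegrable (fun t => t * f' t) volume a b :=
    ((continuousOn_id.mul hf').mono (by rw [uIcc_of_le hab])).intervalIntegrable
  have hparts : ∫ t in a..b, f t = b * f b - a * f a - ∫ t in a..b, t * f' t := by
    have h1 := intervalIntegral.integral_mul_deriv_eq_deriv_mul (a := a) (b := b)
      (u := fun t : ℝ => t) (u' := fun _ => (1 : ℝ)) (v := f) (v' := f')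
      (fun t _ => hasDerivAt_id' t) (fun t ht => hf t (by rwa [uIcc_of_le hab] at ht))
      (by simp) hif'
    simp only [one_mul] at h1
    linarith
  have hI : ∫ t in Ioc a b, deriv f t * ∑ k ∈ Finset.Icc 0 ⌊t⌋₊, c k =
      ∫ t in a..b, f' t * Chebyshev.theta t := by
    rw [intervalIntegral.integral_of_le hab]
    refine setIntegral_congr_fun measurableSet_Ioc fun t ht => ?_
    show deriv f t * ∑ k ∈ Finset.Icc 0 ⌊t⌋₊, c k = f' t * Chebyshev.theta t
    rw [hθ, hderiv ⟨ht.1.le, ht.2⟩]
  have hmθ : IntervalIntegrable (fun t => f' t * Chebyshev.theta t) volume a b := by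
    have h1 : IntegrableOn (fun t => deriv f t * ∑ k ∈ Finset.Icc 0 ⌊t⌋₊, c k) (Icc a b) :=
      integrableOn_mul_sum_Icc c (by linarith) hint
    rw [intervalIntegrable_iff_integrableOn_Icc_of_le hab]
    refine h1.congr_fun (fun t ht => ?_) measurableSet_Icc
    show deriv f t * ∑ k ∈ Finset.Icc 0 ⌊t⌋₊, c k = f' t * Chebyshev.theta t
    rw [hθ, hderiv ht]
  rw [hI, hparts]
  have e : f b * Chebyshev.theta b - f a * Chebyshev.theta a -
      (∫ t in a..b, f' t * Chebyshev.theta t) - (b * f b - a * f a - ∫ t in a..b, t * f' t) =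
      f b * (Chebyshev.theta b - b) - f a * (Chebyshev.theta a - a) -
        ∫ t in a..b, f' t * (Chebyshev.theta t - t) := by
    have h1 : ∫ t in a..b, f' t * (Chebyshev.theta t - t) =
        (∫ t in a..b, f' t * Chebyshev.theta t) - ∫ t in a..b, t * f' t := by
      rw [← intervalIntegral.integral_sub hmθ hitf']
      refine intervalIntegral.integral_congr fun t _ => ?_
      ring
    rw [h1]
    ring
  rw [e]
  have k1 : |f b * (Chebyshev.theta b - b)| ≤ ε * (b * |f b|) := by
    rw [abs_mul]
    calc _ ≤ |f b| * (ε * b) := mul_le_mul_of_nonneg_left (hE b ⟨hab, le_rfl⟩) (abs_nonneg _)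
      _ = _ := by ring
  have k2 : |f a * (Chebyshev.theta a - a)| ≤ ε * (a * |f a|) := by
    rw [abs_mul]
    calc _ ≤ |f a| * (ε * a) := mul_le_mul_of_nonneg_left (hE a ⟨le_rfl, hab⟩) (abs_nonneg _)
      _ = _ := by ring
  have k3 : |∫ t in a..b, f' t * (Chebyshev.theta t - t)| ≤ ε * ∫ t in a..b, t * |f' t| := by
    rw [← intervalIntegral.integral_const_mul]
    have h1 : IntervalIntegrable (fun t => f' t * (Chebyshev.theta t - t)) volume a b := by
      have := hmθ.sub hitf'
      refine this.congr (fun t _ => ?_)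
      show f' t * Chebyshev.theta t - t * f' t = _
      ring
    have h2 : IntervalIntegrable (fun t => ε * (t * |f' t|)) volume a b := by
      have : ContinuousOn (fun t => ε * (t * |f' t|)) (Icc a b) :=
        continuousOn_const.mul (continuousOn_id.mul hf'.abs)
      exact (this.mono (by rw [uIcc_of_le hab])).intervalIntegrable
    refine (intervalIntegral.abs_integral_le_integral_abs hab).trans ?_
    refine intervalIntegral.integral_mono_on hab h1.abs h2 fun t ht => ?_
    rw [abs_mul]
    calc _ ≤ |f' t| * (ε * t) := mul_le_mul_of_nonneg_left (hE t ht) (abs_nonneg _)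
      _ = _ := by ring
  have k4 := abs_sub (f b * (Chebyshev.theta b - b) - f a * (Chebyshev.theta a - a))
    (∫ t in a..b, f' t * (Chebyshev.theta t - t))
  have k5 := abs_sub (f b * (Chebyshev.theta b - b)) (f a * (Chebyshev.theta a - a))
  have k6 : ε * (b * |f b| + a * |f a| + ∫ t in a..b, t * |f' t|) =
    ε * (b * |f b|) + ε * (a * |f a|) + ε * ∫ t in a..b, t * |f' t| := by ring
  rw [k6]
  linarith

/-- the weight -/
noncomputable def fc (γ t : ℝ) : ℝ := Real.cos (γ * Real.log t) / (t * Real.log t)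

/-- its derivative -/
noncomputable def fd (γ t : ℝ) : ℝ :=
  (-(Real.sin (γ * Real.log t) * (γ * t⁻¹)) * (t * Real.log t) -
    Real.cos (γ * Real.log t) * (Real.log t + 1)) / (t * Real.log t) ^ 2

lemma fc_deriv (γ : ℝ) {t : ℝ} (ht : 1 < t) : HasDerivAt (fc γ) (fd γ t) t := by
  have ht0 : t ≠ 0 := by linarith
  have hl : 0 < Real.log t := Real.log_pos ht
  have h1 : HasDerivAt (fun t => γ * Real.log t) (γ * t⁻¹) t := (Real.hasDerivAt_log ht0).const_mul γ
  have h2 := h1.cos
  have h3 : HasDerivAt (fun t => t * Real.log t) (1 * Real.log t + t * t⁻¹) t :=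
    (hasDerivAt_id' t).mul (Real.hasDerivAt_log ht0)
  have h4 := h2.div h3 (by positivity)
  refine h4.congr_deriv ?_
  unfold fd
  rw [mul_inv_cancel₀ ht0, one_mul]
  ring

lemma fd_cont (γ : ℝ) {a b : ℝ} (ha : 1 < a) : ContinuousOn (fd γ) (Icc a b) := by
  unfold fd
  have h0 : ∀ t ∈ Icc a b, t ≠ 0 := fun t ht => by linarith [ht.1]
  have hlog : ContinuousOn Real.log (Icc a b) := continuousOn_id.log h0
  have hinv : ContinuousOn (fun t : ℝ => t⁻¹) (Icc a b) := continuousOn_id.inv₀ h0
  have hne : ∀ t ∈ Icc a b, (t * Real.log t) ^ 2 ≠ 0 := fun t ht => by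
    have : 0 < Real.log t := Real.log_pos (by linarith [ht.1])
    have : 0 < t := by linarith [ht.1]
    positivity
  refine ContinuousOn.div ?_ ((continuousOn_id.mul hlog).pow 2) hne
  refine ContinuousOn.sub ?_ ?_
  · exact (((Real.continuous_sin.comp_continuousOn (continuousOn_const.mul hlog)).mul
      (continuousOn_const.mul hinv)).neg).mul (continuousOn_id.mul hlog)
  · exact (Real.continuous_cos.comp_continuousOn (continuousOn_const.mul hlog)).mul
      (hlog.add continuousOn_const)

lemma fd_le {γ t : ℝ} (ht : 1 ≤ Real.log t) (ht0 : 0 < t) :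
    t * |fd γ t| ≤ (|γ| + 2) * (1 / (t * Real.log t)) := by
  have hl : 0 < Real.log t := by linarith
  unfold fd
  rw [abs_div, abs_of_pos (by positivity : 0 < (t * Real.log t) ^ 2)]
  have h1 : |-(Real.sin (γ * Real.log t) * (γ * t⁻¹)) * (t * Real.log t) -
      Real.cos (γ * Real.log t) * (Real.log t + 1)| ≤ (|γ| + 2) * Real.log t := by
    refine (abs_sub _ _).trans ?_
    have e : -(Real.sin (γ * Real.log t) * (γ * t⁻¹)) * (t * Real.log t) =
        -(Real.sin (γ * Real.log t) * γ * Real.log t) := by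
      field_simp
    rw [e, abs_neg, abs_mul, abs_mul, abs_mul, abs_of_pos hl,
      abs_of_pos (by linarith : 0 < Real.log t + 1)]
    have h2 : |Real.sin (γ * Real.log t)| * |γ| * Real.log t ≤ 1 * |γ| * Real.log t := by
      have := Real.abs_sin_le_one (γ * Real.log t)
      gcongr
    have h3 : |Real.cos (γ * Real.log t)| * (Real.log t + 1) ≤ 1 * (Real.log t + 1) := by
      have := Real.abs_cos_le_one (γ * Real.log t)
      gcongr
    linarith
  rw [← mul_div_assoc, div_le_iff₀ (by positivity)]
  have e2 : (|γ| + 2) * (1 / (t * Real.log t)) * (t * Real.log t) ^ 2 =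
      t * ((|γ| + 2) * Real.log t) := by
    field_simp
  rw [e2]
  exact mul_le_mul_of_nonneg_left h1 ht0.le

lemma ll_int {a b : ℝ} (ha : 1 < a) (hab : a ≤ b) :
    ∫ t in a..b, 1 / (t * Real.log t) = Real.log (Real.log b) - Real.log (Real.log a) := by
  have hd : ∀ t ∈ uIcc a b, HasDerivAt (fun t => Real.log (Real.log t)) (1 / (t * Real.log t)) t := by
    intro t ht
    rw [uIcc_of_le hab] at ht
    have ht0 : t ≠ 0 := by linarith [ht.1]
    have hl : 0 < Real.log t := Real.log_pos (by linarith [ht.1])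
    refine ((Real.hasDerivAt_log ht0).log hl.ne').congr_deriv ?_
    rw [one_div, mul_inv, div_eq_mul_inv]
  refine intervalIntegral.integral_eq_sub_of_hasDerivAt hd ?_
  apply ContinuousOn.intervalIntegrable
  rw [uIcc_of_le hab]
  refine continuousOn_const.div (continuousOn_id.mul (continuousOn_id.log fun t ht => ?_))
    fun t ht => ?_
  · show t ≠ 0
    have : 0 < t := by linarith [ht.1]
    exact this.ne'
  · have hl : 0 < Real.log t := Real.log_pos (by linarith [ht.1])
    have : 0 < t := by linarith [ht.1]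
    show t * Real.log t ≠ 0
    positivity

/-- the oscillating integral -/
lemma osc_int {γ a b : ℝ} (hγ : 0 < γ) (ha : 1 < a) (hab : a ≤ b) :
    |∫ t in a..b, fc γ t| ≤ 3 / (γ * Real.log a) := by
  have hla : 0 < Real.log a := Real.log_pos ha
  have hlab : Real.log a ≤ Real.log b := Real.log_le_log (by linarith) hab
  have hlb : 0 < Real.log b := hla.trans_le hlab
  have hbase : ∀ t ∈ Icc a b, t ≠ 0 ∧ 0 < Real.log t ∧ 0 < t := by
    intro t ht
    have : 0 < t := by linarith [ht.1]
    exact ⟨this.ne', Real.log_pos (by linarith [ht.1]), this⟩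
  set g : ℝ → ℝ := fun t => Real.sin (γ * Real.log t) * (1 / (t * Real.log t ^ 2)) / γ with hg
  have hd : ∀ t ∈ uIcc a b, HasDerivAt (fun t => Real.sin (γ * Real.log t) / (γ * Real.log t))
      (fc γ t - g t) t := by
    intro t ht
    rw [uIcc_of_le hab] at ht
    obtain ⟨h0, hl, hp⟩ := hbase t ht
    have h1 : HasDerivAt (fun t => γ * Real.log t) (γ * t⁻¹) t := (Real.hasDerivAt_log h0).const_mul γ
    have h2 := h1.sin.div h1 (by positivity)
    refine h2.congr_deriv ?_
    simp only [hg, fc]
    field_simp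
  have hlogc : ContinuousOn Real.log (Icc a b) := continuousOn_id.log fun t ht => (hbase t ht).1
  have hfcc : ContinuousOn (fc γ) (Icc a b) := fun t ht =>
    (fc_deriv γ (by linarith [ht.1])).continuousAt.continuousWithinAt
  have hqc : ContinuousOn (fun t => 1 / (t * Real.log t ^ 2)) (Icc a b) := by
    refine continuousOn_const.div (continuousOn_id.mul (hlogc.pow 2)) fun t ht => ?_
    obtain ⟨h0, hl, hp⟩ := hbase t ht
    show t * Real.log t ^ 2 ≠ 0
    positivity
  have hgc : ContinuousOn g (Icc a b) := by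
    simp only [hg]
    exact ((Real.continuous_sin.comp_continuousOn (continuousOn_const.mul hlogc)).mul hqc).div_const γ
  have hic : ∀ {f : ℝ → ℝ}, ContinuousOn f (Icc a b) → IntervalIntegrable f volume a b :=
    fun {f} hf => (hf.mono (by rw [uIcc_of_le hab])).intervalIntegrable
  have h1 := intervalIntegral.integral_eq_sub_of_hasDerivAt hd ((hic hfcc).sub (hic hgc))
  rw [intervalIntegral.integral_sub (hic hfcc) (hic hgc)] at h1
  have h2 : |∫ t in a..b, g t| ≤ 1 / (γ * Real.log a) := by
    have hq : ∫ t in a..b, 1 / (t * Real.log t ^ 2) = 1 / Real.log a - 1 / Real.log b := by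
      have hd2 : ∀ t ∈ uIcc a b, HasDerivAt (fun t => -(Real.log t)⁻¹) (1 / (t * Real.log t ^ 2)) t := by
        intro t ht
        rw [uIcc_of_le hab] at ht
        obtain ⟨h0, hl, hp⟩ := hbase t ht
        refine ((Real.hasDerivAt_log h0).inv hl.ne').neg.congr_deriv ?_
        field_simp
      rw [intervalIntegral.integral_eq_sub_of_hasDerivAt hd2 (hic hqc)]
      simp only [one_div]
      ring
    have h3 : |∫ t in a..b, g t| ≤ ∫ t in a..b, 1 / (t * Real.log t ^ 2) / γ := by
      refine (intervalIntegral.abs_integral_le_integral_abs hab).trans ?_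
      refine intervalIntegral.integral_mono_on hab (hic hgc.abs) (hic (hqc.div_const γ)) fun t ht => ?_
      obtain ⟨h0, hl, hp⟩ := hbase t ht
      simp only [hg]
      rw [abs_div, abs_mul, abs_of_pos hγ, abs_of_pos (by positivity : 0 < 1 / (t * Real.log t ^ 2))]
      have := Real.abs_sin_le_one (γ * Real.log t)
      apply div_le_div_of_nonneg_right _ hγ.le
      calc _ ≤ 1 * (1 / (t * Real.log t ^ 2)) := by gcongr
        _ = _ := one_mul _
    have hdq : ∫ t in a..b, 1 / (t * Real.log t ^ 2) / γ =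
        (∫ t in a..b, 1 / (t * Real.log t ^ 2)) / γ := intervalIntegral.integral_div _ _
    rw [hdq, hq] at h3
    refine h3.trans ?_
    have h4 : 0 < 1 / Real.log b := by positivity
    calc (1 / Real.log a - 1 / Real.log b) / γ ≤ (1 / Real.log a) / γ := by
          apply div_le_div_of_nonneg_right _ hγ.le
          linarith
      _ = 1 / (γ * Real.log a) := by rw [div_div, mul_comm]
  have h5 : |Real.sin (γ * Real.log b) / (γ * Real.log b)| ≤ 1 / (γ * Real.log a) := by
    rw [abs_div, abs_of_pos (by positivity : 0 < γ * Real.log b)]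
    apply div_le_div₀ zero_le_one (Real.abs_sin_le_one _) (by positivity)
    gcongr
  have h6 : |Real.sin (γ * Real.log a) / (γ * Real.log a)| ≤ 1 / (γ * Real.log a) := by
    rw [abs_div, abs_of_pos (by positivity : 0 < γ * Real.log a)]
    apply div_le_div_of_nonneg_right (Real.abs_sin_le_one _) (by positivity)
  have h7 : 3 / (γ * Real.log a) = 1 / (γ * Real.log a) + 1 / (γ * Real.log a) +
      1 / (γ * Real.log a) := by ring
  rw [h7]
  rw [abs_le] at h2 h5 h6 ⊢
  constructor <;> linarith

/-- cosine sums over the primes -/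
theorem cos_sum (H : ℝ) (hH : 0 ≤ H) (ε : ℝ) (hε : 0 < ε) : ∃ U0 : ℝ, 1 ≤ U0 ∧
    ∀ U V : ℝ, U0 ≤ U → U ≤ V → ∀ γ : ℝ, 0 ≤ γ → γ ≤ H →
      |∑ p ∈ PI (Real.exp U) (Real.exp V), Real.cos (γ * Real.log p) / p -
        ∫ t in (Real.exp U)..(Real.exp V), fc γ t| ≤ ε * (1 + (Real.log V - Real.log U)) := by
  obtain ⟨e1, he1⟩ : ∃ e1 : ℝ, e1 = ε / (H + 2) := ⟨_, rfl⟩
  have he10 : 0 < e1 := by rw [he1]; positivity
  have h1 := Pool.Agent.Cov.PNT.theta_div_tendsto
  have h2 := h1.eventually (Icc_mem_nhds (show 1 - e1 < 1 by linarith) (show 1 < 1 + e1 by linarith))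
  obtain ⟨x0, hx0⟩ := eventually_atTop.1 h2
  refine ⟨max 1 (Real.log (max x0 1)), le_max_left _ _, fun U V hU hUV γ hγ hγH => ?_⟩
  have hU1 : 1 ≤ U := (le_max_left _ _).trans hU
  have hU0 : x0 ≤ Real.exp U := by
    have := (le_max_right _ _).trans hU
    rw [Real.log_le_iff_le_exp (by positivity)] at this
    exact (le_max_left _ _).trans this
  set a := Real.exp U with ha
  set b := Real.exp V with hb
  have hab : a ≤ b := Real.exp_le_exp.2 hUV
  have ha1 : 1 < a := by
    have := Real.add_one_le_exp U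
    linarith
  have hla : Real.log a = U := Real.log_exp U
  have hlb : Real.log b = V := Real.log_exp V
  have hE : ∀ t ∈ Icc a b, |Chebyshev.theta t - t| ≤ e1 * t := by
    intro t ht
    have ht0 : 0 < t := by linarith [ht.1]
    obtain ⟨k1, k2⟩ := hx0 t (hU0.trans ht.1)
    rw [le_div_iff₀ ht0] at k1
    rw [div_le_iff₀ ht0] at k2
    rw [abs_le]
    constructor <;> linarith
  have hmain := abel ha1.le hab (f := fc γ) (f' := fd γ)
    (fun t ht => fc_deriv γ (by linarith [ht.1])) (fd_cont γ ha1) hE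
  have hs : ∑ p ∈ PI a b, fc γ p * Real.log p = ∑ p ∈ PI a b, Real.cos (γ * Real.log p) / p := by
    refine Finset.sum_congr rfl fun p hp => ?_
    have hp2 : 2 ≤ p := (Finset.mem_filter.1 hp).2.two_le
    have hp0 : (0 : ℝ) < p := by exact_mod_cast (by omega : 0 < p)
    have hlp : 0 < Real.log p := Real.log_pos (by exact_mod_cast (by omega : 1 < p))
    unfold fc
    field_simp
  rw [hs] at hmain
  refine hmain.trans ?_
  have fcb : ∀ t : ℝ, 1 ≤ Real.log t → 0 < t → t * |fc γ t| ≤ 1 := by
    intro t ht ht0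
    unfold fc
    rw [abs_div, abs_of_pos (by positivity : 0 < t * Real.log t)]
    rw [← mul_div_assoc, div_le_one (by positivity)]
    have := Real.abs_cos_le_one (γ * Real.log t)
    calc t * |Real.cos (γ * Real.log t)| ≤ t * 1 := by gcongr
      _ ≤ t * Real.log t := by gcongr
  have b1 : b * |fc γ b| ≤ 1 := fcb b (by rw [hlb]; linarith) (Real.exp_pos _)
  have b2 : a * |fc γ a| ≤ 1 := fcb a (by rw [hla]; linarith) (Real.exp_pos _)
  have b3 : ∫ t in a..b, t * |fd γ t| ≤ (H + 2) * (Real.log V - Real.log U) := by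
    have k1 : ∫ t in a..b, t * |fd γ t| ≤ ∫ t in a..b, (H + 2) * (1 / (t * Real.log t)) := by
      refine intervalIntegral.integral_mono_on hab ?_ ?_ fun t ht => ?_
      · exact ((continuousOn_id.mul (fd_cont γ ha1).abs).mono
          (by rw [uIcc_of_le hab])).intervalIntegrable
      · have : ContinuousOn (fun t => (H + 2) * (1 / (t * Real.log t))) (Icc a b) := by
          refine continuousOn_const.mul (continuousOn_const.div (continuousOn_id.mul
            (continuousOn_id.log fun t ht => ?_)) fun t ht => ?_)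
          · show t ≠ 0
            have : 0 < t := by linarith [ht.1]
            exact this.ne'
          · have hl : 0 < Real.log t := Real.log_pos (by linarith [ht.1])
            have : 0 < t := by linarith [ht.1]
            show t * Real.log t ≠ 0
            positivity
        exact (this.mono (by rw [uIcc_of_le hab])).intervalIntegrable
      · have ht0 : 0 < t := by linarith [ht.1]
        have hlt : 1 ≤ Real.log t := by
          have := Real.log_le_log (by linarith) ht.1
          rw [hla] at this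
          linarith
        refine (fd_le hlt ht0).trans ?_
        rw [abs_of_nonneg hγ]
        gcongr
    rw [intervalIntegral.integral_const_mul, ll_int ha1 hab, hla, hlb] at k1
    exact k1
  have hlUV : 0 ≤ Real.log V - Real.log U := by
    have := Real.log_le_log (by linarith) hUV
    linarith
  calc e1 * (b * |fc γ b| + a * |fc γ a| + ∫ t in a..b, t * |fd γ t|) ≤
      e1 * (1 + 1 + (H + 2) * (Real.log V - Real.log U)) := by gcongr
    _ ≤ e1 * ((H + 2) * (1 + (Real.log V - Real.log U))) := by
        apply mul_le_mul_of_nonneg_left _ he10.le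
        nlinarith
    _ = ε * (1 + (Real.log V - Real.log U)) := by
        rw [he1]
        field_simp

/-- **the product sum** -/
theorem prod_sum (H : ℝ) (hH : 0 ≤ H) : ∃ U0 : ℝ, 1 ≤ U0 ∧
    ∀ U V : ℝ, U0 ≤ U → U ≤ V → ∀ α β : ℝ, 0 < α → 2 * α ≤ β → β + α ≤ H →
      (Real.log V - Real.log U) / 2 - 9 / (α * U) - 1 ≤
      ∑ p ∈ PI (Real.exp U) (Real.exp V), (1 - Real.cos (α * Real.log p)) *
        (1 - Real.cos (β * Real.log p)) / p := by
  obtain ⟨U0, hU0, h⟩ := cos_sum H hH (1 / 8) (by norm_num)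
  refine ⟨U0, hU0, fun U V hU hUV α β hα hαβ hβ => ?_⟩
  have hU1 : 1 ≤ U := hU0.trans hU
  have hexp : Real.exp U ≤ Real.exp V := Real.exp_le_exp.2 hUV
  have ha1 : 1 < Real.exp U := by
    have := Real.add_one_le_exp U
    linarith
  set D := Real.log V - Real.log U with hD
  have hD0 : 0 ≤ D := by
    have := Real.log_le_log (by linarith) hUV
    linarith
  have h0 := h U V hU hUV 0 le_rfl hH
  have hfc0 : ∫ t in (Real.exp U)..(Real.exp V), fc 0 t = D := by
    have e : ∀ t : ℝ, fc 0 t = 1 / (t * Real.log t) := by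
      intro t
      unfold fc
      rw [zero_mul, Real.cos_zero]
    simp_rw [e]
    rw [ll_int ha1 hexp, Real.log_exp, Real.log_exp]
  rw [hfc0] at h0
  have hg : ∀ γ : ℝ, α ≤ γ → γ ≤ H → |∑ p ∈ PI (Real.exp U) (Real.exp V),
      Real.cos (γ * Real.log p) / p| ≤ 3 / (α * U) + 1 / 8 * (1 + D) := by
    intro γ h1 h2
    have k1 := h U V hU hUV γ (by linarith) h2
    have k2 := osc_int (γ := γ) (by linarith) ha1 hexp
    rw [Real.log_exp] at k2
    have k3 : 3 / (γ * U) ≤ 3 / (α * U) := by
      apply div_le_div_of_nonneg_left (by norm_num) (by positivity)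
      gcongr
    rw [abs_le] at k1 k2 ⊢
    constructor <;> linarith
  have g1 := hg α le_rfl (by linarith)
  have g2 := hg β (by linarith) (by linarith)
  have g3 := hg (β - α) (by linarith) (by linarith)
  have g4 := hg (β + α) (by linarith) hβ
  have e : ∑ p ∈ PI (Real.exp U) (Real.exp V), (1 - Real.cos (α * Real.log p)) *
        (1 - Real.cos (β * Real.log p)) / p =
      ∑ p ∈ PI (Real.exp U) (Real.exp V), Real.cos (0 * Real.log p) / p -
      ∑ p ∈ PI (Real.exp U) (Real.exp V), Real.cos (α * Real.log p) / p -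
      ∑ p ∈ PI (Real.exp U) (Real.exp V), Real.cos (β * Real.log p) / p +
      1 / 2 * ∑ p ∈ PI (Real.exp U) (Real.exp V), Real.cos ((β - α) * Real.log p) / p +
      1 / 2 * ∑ p ∈ PI (Real.exp U) (Real.exp V), Real.cos ((β + α) * Real.log p) / p := by
    rw [Finset.mul_sum, Finset.mul_sum, ← Finset.sum_sub_distrib, ← Finset.sum_sub_distrib,
      ← Finset.sum_add_distrib, ← Finset.sum_add_distrib]
    refine Finset.sum_congr rfl fun p _ => ?_
    rw [zero_mul, Real.cos_zero, sub_mul β α, add_mul β α, Real.cos_sub, Real.cos_add]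
    ring
  rw [e]
  obtain ⟨a1, a2⟩ := abs_le.1 h0
  obtain ⟨b1, b2⟩ := abs_le.1 g1
  obtain ⟨c1, c2⟩ := abs_le.1 g2
  obtain ⟨d1, d2⟩ := abs_le.1 g3
  obtain ⟨f1, f2⟩ := abs_le.1 g4
  have e9 : 9 / (α * U) = 3 * (3 / (α * U)) := by ring
  rw [e9]
  linarith

end Pool.Agent.W2helper67.TM
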