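import Pool.Agent.W2helper67.TM.Tc
import Pool.Agent.W2helper67.RL.Sb

set_option autoImplicit false

/-! # The variance of the difference of two far apart windows -/

namespace Pool.Agent.W2helper67.TM

open Complex Filter Topology MeasureTheory Set
open Pool.Agent.TH850.UV
open ArithmeticFunction (vonMangoldt)
open Pool.Agent.Y743.CL (Pr mem_Pr)
open Pool.Agent.W2helper67.RL

/-- the coefficients -/
def c4 : Fin 4 → ℝ := ![-1, 1, 1, -1]

/-- the positions -/
def h4 (α a : ℝ) : Fin 4 → ℝ := ![0, α, a, a + α]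

lemma kc4 (l α a : ℝ) (n : ℕ) (hn : 1 ≤ n) : kc l c4 (h4 α a) n =
    kap l α n * (1 - (n : ℂ) ^ (-(a : ℂ) * I)) := by
  unfold kc
  simp only [kap_fac, Fin.sum_univ_four, c4, h4, Matrix.cons_val_zero, Matrix.cons_val_one,
    Matrix.cons_val]
  rw [cpow_add n hn a α]
  have h0 : (n : ℂ) ^ (-((0 : ℝ) : ℂ) * I) = 1 := by simp
  rw [h0]
  push_cast
  ring

lemma kn_sq {l : ℝ} (hl : 0 < l) (n : ℕ) (hn : 2 ≤ n) : ‖kn l n‖ ^ 2 =
    1 / (2 * Real.pi ^ 3) * (vonMangoldt n ^ 2 / (n * Real.log n ^ 2)) * (l * ggo l n) ^ 2 := by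
  have hlog : 0 < Real.log n := Real.log_pos (by exact_mod_cast (by omega : 1 < n))
  have h1 := kap_sq hl (Real.pi / Real.log n) n hn
  rw [kap_fac, norm_mul, mul_pow, norm_one_sub_cpow n (by omega)] at h1
  have e : Real.pi / Real.log n * Real.log n = Real.pi := by field_simp
  rw [e, Real.cos_pi] at h1
  have e2 : 1 / (2 * Real.pi ^ 3) * (vonMangoldt n ^ 2 / (n * Real.log n ^ 2)) *
      (l * ggo l n) ^ 2 = 1 / 4 * (1 / Real.pi ^ 3 * (vonMangoldt n ^ 2 / (n * Real.log n ^ 2) *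
        (1 - -1)) * (l * ggo l n) ^ 2) := by ring
  rw [e2, ← h1]
  ring

lemma kc4_sq (l α a : ℝ) (n : ℕ) (hn : 1 ≤ n) : ‖kc l c4 (h4 α a) n‖ ^ 2 =
    4 * ‖kn l n‖ ^ 2 * ((1 - Real.cos (α * Real.log n)) * (1 - Real.cos (a * Real.log n))) := by
  rw [kc4 l α a n hn, kap_fac, norm_mul, norm_mul, mul_pow, mul_pow, norm_one_sub_cpow n hn,
    norm_one_sub_cpow n hn]
  ring

lemma kc4_up (l α a : ℝ) (n : ℕ) (hn : 1 ≤ n) : ‖kc l c4 (h4 α a) n‖ ^ 2 ≤ 4 * ‖kap l α n‖ ^ 2 := by
  rw [kc4 l α a n hn, norm_mul, mul_pow, norm_one_sub_cpow n hn]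
  have := Real.neg_one_le_cos (a * Real.log n)
  have h2 : 2 * (1 - Real.cos (a * Real.log n)) ≤ 4 := by linarith
  calc ‖kap l α n‖ ^ 2 * (2 * (1 - Real.cos (a * Real.log n))) ≤ ‖kap l α n‖ ^ 2 * 4 :=
        mul_le_mul_of_nonneg_left h2 (sq_nonneg _)
    _ = _ := by ring

/-- the lower bound of the coefficients -/
lemma kn_low {l : ℝ} (hl : 100 ≤ l) (p : ℕ) (hp : p.Prime) (hp1 : 100 ≤ p)
    (hpl : Real.log p ≤ l / 100) : 1 / (2 * Real.pi ^ 3) * (1 / p) ≤ ‖kn l p‖ ^ 2 := by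
  have hl0 : 0 < l := by linarith
  have hpi := Real.pi_pos
  have hp0 : (0 : ℝ) < p := by exact_mod_cast hp.pos
  have hlog : 0 < Real.log p := Real.log_pos (by exact_mod_cast hp.one_lt)
  rw [kn_sq hl0 p hp.two_le, ArithmeticFunction.vonMangoldt_apply_prime hp]
  have e : Real.log p ^ 2 / (p * Real.log p ^ 2) = 1 / p := by field_simp
  rw [e]
  have h1 := ggo_low (l := l) (by linarith) p hp.one_le (by linarith)
  have h2 : (1 + Real.log p) / l ≤ 1 / 50 := by
    rw [div_le_iff₀ hl0]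
    linarith
  have h3 : (1 : ℝ) / p ≤ 1 / 100 := by
    apply one_div_le_one_div_of_le (by norm_num)
    exact_mod_cast hp1
  have h4 : (5 : ℝ) / 2 ≤ Real.sqrt (2 * Real.pi) := by
    apply Real.le_sqrt_of_sq_le
    linarith [Real.pi_gt_d2]
  have h5 : 1 ≤ l * ggo l p := by linarith
  have h6 : 1 ≤ (l * ggo l p) ^ 2 := one_le_pow₀ h5
  calc _ = 1 / (2 * Real.pi ^ 3) * (1 / p) * 1 := by ring
    _ ≤ _ := mul_le_mul_of_nonneg_left h6 (by positivity)

/-- **the bounds of the variance** -/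
theorem var4 {lam : ℝ} (hlam : 16 ≤ lam) : ∃ C r1 : ℝ, 0 < C ∧ 1 ≤ r1 ∧ ∀ r : ℕ, r1 ≤ r → ∀ H : ℝ,
    0 ≤ H → ∃ T0 : ℝ, 10 ≤ T0 ∧ ∀ T : ℝ, T0 ≤ T → ∀ a : ℝ,
    2 * (2 * Real.pi * r / Real.log T) ≤ a → a ≤ H →
    1 / 80 * Real.log r ≤ ∑ p ∈ Pr (YT (Real.log T / lam)), ‖kc (Real.log T / lam) c4
      (h4 (2 * Real.pi * r / Real.log T) a) p‖ ^ 2 ∧
    ∑ p ∈ Pr (YT (Real.log T / lam)), ‖kc (Real.log T / lam) c4
      (h4 (2 * Real.pi * r / Real.log T) a) p‖ ^ 2 ≤ Real.log r + 4 * C := by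
  have hlam0 : 0 < lam := by linarith
  have hpi := Real.pi_pos
  have hpi3 := Real.pi_gt_three
  have hpi4 := Real.pi_lt_d2
  obtain ⟨C, T1, hC, hT1, hk⟩ := kap_sum hlam 1 le_rfl
  obtain ⟨r1, hr1⟩ : ∃ r1 : ℝ, r1 = max (100 * lam) (Real.exp (4 * (Real.log (100 * lam) + 5))) :=
    ⟨_, rfl⟩
  have hlam1 : 0 ≤ Real.log (100 * lam) := Real.log_nonneg (by linarith)
  refine ⟨C, r1, hC, ?_, fun r hr H hH => ?_⟩
  · rw [hr1]
    exact le_trans (by linarith) (le_max_left _ _)
  have hra : 100 * lam ≤ r := by rw [hr1] at hr; exact (le_max_left _ _).trans hr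
  have hr0 : (0 : ℝ) < r := by linarith
  have hrb : 4 * (Real.log (100 * lam) + 5) ≤ Real.log r := by
    rw [Real.le_log_iff_exp_le hr0]
    rw [hr1] at hr
    exact (le_max_right _ _).trans hr
  obtain ⟨U0, hU0, hps⟩ := prod_sum (H + 1) (by linarith)
  have hlog := Real.tendsto_log_atTop
  obtain ⟨T2, hT2⟩ := ((hlog.eventually_ge_atTop (r * U0)).and
    ((hlog.eventually_ge_atTop (5 * r)).and ((hlog.eventually_ge_atTop (100 * lam)).and
    ((hlog.eventually_ge_atTop (2 * Real.pi * r)).and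
    (hlog.eventually_ge_atTop (r * Real.log r)))))).exists_forall_of_atTop
  refine ⟨max T1 T2, hT1.trans (le_max_left _ _), fun T hT a ha haH => ?_⟩
  obtain ⟨g1, g2, g3, g4, g5⟩ := hT2 T ((le_max_right _ _).trans hT)
  have hL0 : 0 < Real.log T := by linarith
  set L := Real.log T with hL
  set l := L / lam with hl
  set α := 2 * Real.pi * r / L with hα
  have hl0 : 0 < l := by positivity
  have hα0 : 0 < α := by positivity
  have hα1 : α ≤ 1 := by rw [hα, div_le_one hL0]; exact g4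
  constructor
  · -- the lower bound
    set U := L / r with hU
    set V := l / 100 with hV
    have hU0' : 0 < U := by positivity
    have hV0 : 0 < V := by positivity
    have k1 : U0 ≤ U := by rw [hU, le_div_iff₀ hr0]; linarith
    have k2 : U ≤ V := by
      rw [hU, hV, hl, div_div]
      apply div_le_div_of_nonneg_left hL0.le (by positivity)
      linarith
    have k3 := hps U V k1 k2 α a hα0 ha (by linarith)
    have k4 : α * U = 2 * Real.pi := by rw [hα, hU]; field_simp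
    have k5 : Real.log V - Real.log U = Real.log r - Real.log (100 * lam) := by
      have e : V / U = r / (100 * lam) := by rw [hV, hU, hl]; field_simp
      rw [← Real.log_div hV0.ne' hU0'.ne', e, Real.log_div hr0.ne' (by positivity)]
    have k6 : 9 / (α * U) ≤ 3 / 2 := by
      rw [k4, div_le_div_iff₀ (by positivity) (by norm_num)]
      linarith
    rw [k5] at k3
    have k7 : Real.log r / 4 ≤ ∑ p ∈ PI (Real.exp U) (Real.exp V),
        (1 - Real.cos (α * Real.log p)) * (1 - Real.cos (a * Real.log p)) / p := by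
      linarith
    have k8 : PI (Real.exp U) (Real.exp V) ⊆ Pr (YT l) := by
      intro p hp
      unfold PI at hp
      rw [Finset.mem_filter, Finset.mem_Ioc] at hp
      rw [mem_Pr]
      refine ⟨hp.2, hp.1.2.trans ?_⟩
      unfold YT
      apply Nat.floor_le_floor
      apply Real.exp_le_exp.2
      rw [hV]
      linarith
    have k9 : ∀ p ∈ PI (Real.exp U) (Real.exp V), 4 * (1 / (2 * Real.pi ^ 3)) *
        ((1 - Real.cos (α * Real.log p)) * (1 - Real.cos (a * Real.log p)) / p) ≤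
        ‖kc l c4 (h4 α a) p‖ ^ 2 := by
      intro p hp
      unfold PI at hp
      rw [Finset.mem_filter, Finset.mem_Ioc] at hp
      obtain ⟨⟨hp1, hp2⟩, hp3⟩ := hp
      have hp0 : (0 : ℝ) < p := by exact_mod_cast hp3.pos
      have hple : (p : ℝ) ≤ Real.exp V := by
        have := Nat.floor_le (Real.exp_pos V).le
        exact le_trans (by exact_mod_cast hp2) this
      have hpge : Real.exp U < p := by
        have h1 := Nat.lt_floor_add_one (Real.exp U)
        have h2 : ((⌊Real.exp U⌋₊ : ℝ) + 1) ≤ p := by exact_mod_cast hp1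
        linarith
      have hU5 : 5 ≤ U := by rw [hU, le_div_iff₀ hr0]; exact g2
      have h100 : (100 : ℝ) ≤ p := by
        have h1 : (100 : ℝ) ≤ Real.exp 5 := by
          have h2 : Real.exp 5 = Real.exp 1 ^ 5 := by rw [← Real.exp_nat_mul]; norm_num
          rw [h2]
          have h3 := Real.exp_one_gt_d9
          calc (100 : ℝ) ≤ 2.7 ^ 5 := by norm_num
            _ ≤ Real.exp 1 ^ 5 := by gcongr; linarith
        have h2 := Real.exp_le_exp.2 hU5
        linarith
      have h100' : 100 ≤ p := by exact_mod_cast h100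
      have hlogp : Real.log p ≤ l / 100 := by
        rw [← hV, Real.log_le_iff_le_exp hp0]
        exact hple
      have hl100 : 100 ≤ l := by rw [hl, le_div_iff₀ hlam0]; exact g3
      have h1 := kn_low hl100 p hp3 h100' hlogp
      rw [kc4_sq l α a p hp3.one_le]
      have h2 : 0 ≤ (1 - Real.cos (α * Real.log p)) * (1 - Real.cos (a * Real.log p)) :=
        mul_nonneg (by linarith [Real.cos_le_one (α * Real.log p)])
          (by linarith [Real.cos_le_one (a * Real.log p)])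
      calc _ = 4 * (1 / (2 * Real.pi ^ 3) * (1 / p)) *
            ((1 - Real.cos (α * Real.log p)) * (1 - Real.cos (a * Real.log p))) := by ring
        _ ≤ _ := by gcongr
    have k10 := Finset.sum_le_sum k9
    rw [← Finset.mul_sum] at k10
    have k11 := Finset.sum_le_sum_of_subset_of_nonneg (f := fun p => ‖kc l c4 (h4 α a) p‖ ^ 2) k8
      (fun _ _ _ => sq_nonneg _)
    have k12 : (1 : ℝ) / 20 ≤ 4 * (1 / (2 * Real.pi ^ 3)) := by
      have h1 : Real.pi ^ 3 ≤ 40 := by
        have h2 : Real.pi ^ 3 ≤ 3.15 ^ 3 := by gcongr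
        refine h2.trans (by norm_num)
      have h3 : 4 * (1 / (2 * Real.pi ^ 3)) = 2 / Real.pi ^ 3 := by field_simp; ring
      rw [h3, div_le_div_iff₀ (by norm_num) (by positivity)]
      linarith
    have k13 : 0 ≤ Real.log r / 4 := by linarith
    have k14 := mul_le_mul k12 k7 k13 (by positivity)
    linarith
  · -- the upper bound
    have k1 := hk T ((le_max_left _ _).trans hT) r (by linarith) (by rw [one_mul]; exact g5)
    have k2 := (abs_le.1 k1).2
    have k3 : ∑ p ∈ Pr (YT l), ‖kap l α p‖ ^ 2 ≤ ∑ n ∈ Finset.Icc 2 (XT T), ‖kap l α n‖ ^ 2 := by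
      apply Finset.sum_le_sum_of_subset_of_nonneg _ (fun _ _ _ => sq_nonneg _)
      intro p hp
      rw [mem_Pr] at hp
      rw [Finset.mem_Icc]
      exact ⟨hp.1.two_le, hp.2.trans (YT_le_XT hlam (hT1.trans ((le_max_left _ _).trans hT)))⟩
    have k4 : ∑ p ∈ Pr (YT l), ‖kc l c4 (h4 α a) p‖ ^ 2 ≤ 4 * ∑ p ∈ Pr (YT l), ‖kap l α p‖ ^ 2 := by
      rw [Finset.mul_sum]
      refine Finset.sum_le_sum fun p hp => kc4_up l α a p (mem_Pr.1 hp).1.one_le
    have k5 : 2 / Real.pi ^ 2 ≤ 1 / 4 := by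
      rw [div_le_div_iff₀ (by positivity) (by norm_num)]
      nlinarith
    have hlr : 0 ≤ Real.log r := by linarith
    have k6 : 2 / Real.pi ^ 2 * Real.log r ≤ 1 / 4 * Real.log r := by gcongr
    linarith

end Pool.Agent.W2helper67.TM
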